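import Pool.Agent.EHA.Merge

set_option autoImplicit false

/-!
Approximation passes from the kernels of homomorphisms to groups in the class `HierL`, defined on
the finitely generated subgroups without homomorphisms to `ℤ` of a subgroup of finite index, to the
group.
-/

open Filter

/-- Let `G0` be a subgroup of finite index of `G` and let `π i : G → H i` be homomorphisms such
that every `g ≠ 1` eventually has nontrivial image. Suppose that every finitely generated subgroup
`K` of `G0` without nontrivial homomorphism to `ℤ` has a homomorphism `f : K →* Q`, `Q` in the
class `HierL`, whose kernel satisfies the conclusion of the strong Atiyah conjecture over `k` and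
approximation with coefficients in `k` along the restrictions of the `π i`. Then approximation with
coefficients in `k` holds for `G` along the `π i`.

The class `HierL` is the smallest class of groups which contains the trivial groups and is closed
under graphs of groups (actions on trees without inversions), extensions by elementary amenable
groups, directed unions and the local step: a group belongs to the class if all its finitely
generated subgroups without nontrivial homomorphisms to `ℤ` do.

Special cases: one homomorphism `G0 →* Q` whose kernel satisfies both hypotheses (restricted to the
subgroups `K`); all subgroups `K` satisfy both hypotheses (`Q` trivial). -/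
theorem Pool.Agent.Results.MP_ae12df_gt.Extension.result (k : Subring ℂ) (G : Type) [Group G]
    (G0 : Subgroup G) (hG0 : G0.index ≠ 0) {I : Type} (l : Filter I)
    {H : I → Type} [∀ i, Group (H i)] (π : ∀ i, G →* H i)
    (hπ : ∀ g : G, g ≠ 1 → ∀ᶠ i in l, π i g ≠ 1)
    (h : ∀ K : Subgroup G0, K.FG → (∀ f : K →* Multiplicative ℤ, f = 1) →
      ∃ (Q : Type) (_ : Group Q) (f : K →* Q), Pool.Agent.HL.HierL Q ∧
        Pool.Agent.VN.AtiyahOver k f.ker ∧
        Pool.Agent.HX.ApproxAlong k l fun i =>
          (((π i).comp G0.subtype).comp K.subtype).comp f.ker.subtype) :
    Pool.Agent.HX.ApproxAlong k l π :=
  Pool.Agent.EHA.approx_merge k G G0 hG0 l π hπ h
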