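import Pool.Agent.AH.ApproxA

set_option autoImplicit false

/-!
Approximation passes from the vertex groups to graphs of groups with amenable edge groups if the
fundamental group is sofic. The targets of the homomorphisms are arbitrary.
-/

open Filter

/-- Let a sofic group `G` act by automorphisms and without inversions on a tree such that the
stabilisers `G_u ∩ G_v` of all edges are amenable, and let `π i : G → H i` be homomorphisms such
that every `g ≠ 1` eventually has nontrivial image. If approximation with rational coefficients
holds for the stabilisers of all vertices along the restrictions of the `π i`, then it holds for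
`G` along the `π i`. -/
theorem Pool.Agent.Results.MP_ae12df_gt.SoficTrees.result (G V : Type) [Group G] [MulAction G V]
    (hG : Pool.Agent.AH.IsSofic G) (T : SimpleGraph V) (hT : T.IsTree)
    (hadj : ∀ (g : G) (u v : V), T.Adj u v → T.Adj (g • u) (g • v))
    (hinv : ∀ (g : G) (u v : V), T.Adj u v → ¬ (g • u = v ∧ g • v = u))
    (hE : ∀ u v : V, T.Adj u v → Pool.Agent.AH.Amn
      (MulAction.stabilizer G u ⊓ MulAction.stabilizer G v : Subgroup G))
    {I : Type} (l : Filter I) {H : I → Type} [∀ i, Group (H i)] (π : ∀ i, G →* H i)
    (hπ : ∀ g : G, g ≠ 1 → ∀ᶠ i in l, π i g ≠ 1)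
    (h : ∀ v : V, Pool.Agent.HX.ApproxAlong Pool.Agent.AH.Qc l
      fun i => (π i).comp (MulAction.stabilizer G v).subtype) :
    Pool.Agent.HX.ApproxAlong Pool.Agent.AH.Qc l π :=
  Pool.Agent.AH.approx_amenable hG T hT hadj hinv hE l π hπ h
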