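import Pool.Agent.EHA.Comb

set_option autoImplicit false

/-!
Approximation passes from the vertex groups to graphs of groups whose edge groups are nice
subgroups of the vertex groups: of finite index, or finite (over the complex numbers), or such that
the vertex group satisfies the Atiyah conjecture and the pair is in the class `Nice` (for example,
arbitrary subgroups of amenable groups which satisfy the Atiyah conjecture).
-/

open Filter

/-- Let `G` act without inversions on a tree such that, for all adjacent vertices `u` and `v`, the
intersection of their stabilisers has finite index in the stabiliser `G_u` of `u`, or is finite and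
`k = ℂ`, or `G_u` satisfies the Atiyah conjecture over `k` and the pair `(G_u, G_u ∩ G_v)` is in
the class `Nice k`. Let `π i : G → H i` be homomorphisms such that every `g ≠ 1` eventually has
nontrivial image. If approximation with coefficients in `k` holds for the stabilisers of the
vertices along the restrictions of the `π i`, then it holds for `G`. -/
theorem Pool.Agent.Results.MP_ae12df_gt.TreeCombination.result (k : Subring ℂ) (G V : Type)
    [Group G] [MulAction G V] (T : SimpleGraph V) (hT : T.IsTree)
    (hadj : ∀ (g : G) (u v : V), T.Adj u v → T.Adj (g • u) (g • v))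
    (hinv : ∀ (g : G) (u v : V), T.Adj u v → ¬ (g • u = v ∧ g • v = u))
    (hE : ∀ u v : V, T.Adj u v →
      (MulAction.stabilizer G v).relIndex (MulAction.stabilizer G u) ≠ 0 ∨
        (k = ⊤ ∧ {g : G | g • u = u ∧ g • v = v}.Finite) ∨
        (Pool.Agent.VN.AtiyahOver k (MulAction.stabilizer G u) ∧
          Pool.Agent.HC.Nice k (MulAction.stabilizer G u)
            ((MulAction.stabilizer G v).subgroupOf (MulAction.stabilizer G u))))
    {I : Type} (l : Filter I) {H : I → Type} [∀ i, Group (H i)] (π : ∀ i, G →* H i)
    (hπ : ∀ g : G, g ≠ 1 → ∀ᶠ i in l, π i g ≠ 1)
    (h : ∀ v : V, Pool.Agent.HX.ApproxAlong k l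
      fun i => (π i).comp (MulAction.stabilizer G v).subtype) :
    Pool.Agent.HX.ApproxAlong k l π :=
  Pool.Agent.EHA.approx_comb k T hT hadj hinv hE l π hπ h
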