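import Pool.Agent.VN.Approx

set_option autoImplicit false

noncomputable section

open Filter Topology

namespace Pool.Agent.Results.MP_ae12df_gt.TreeFree

open Pool.Agent.VN

/-- Let `A` be a matrix over `ℂG`. For every homomorphism from `G` to a group whose kernel acts
freely on some tree on which `G` acts, the dimension of the kernel of `A` is at most that of the
kernel of the image of `A`. If a net of such homomorphisms is eventually nontrivial on every
nontrivial element of `G`, then the dimensions converge to that of the kernel of `A`. -/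
theorem result (G : Type) [Group G] {m n : ℕ} (A : Matrix (Fin m) (Fin n) (G →₀ ℂ)) :
    (∀ (H : Type) [Group H] (π : G →* H), TreeFree π.ker → kerDim A ≤ kerDim (pushMat π A)) ∧
    ∀ (I : Type) (l : Filter I) (H : I → Type) [∀ i, Group (H i)] (π : ∀ i, G →* H i),
      (∀ g : G, g ≠ 1 → ∀ᶠ i in l, π i g ≠ 1) → (∀ᶠ i in l, TreeFree (π i).ker) →
      Tendsto (fun i => kerDim (pushMat (π i) A)) l (𝓝 (kerDim A)) :=
  ⟨fun _ _ π hfree => kerDim_le_of_treeFree π hfree A,
    fun _ _ _ _ π hπ hfree => tendsto_of_treeFree π hπ hfree A⟩

end Pool.Agent.Results.MP_ae12df_gt.TreeFree
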